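import Pool.Agent.Helper64.PQ.Goals
import Pool.Agent.Helper89.BigA

set_option autoImplicit false

/-!
Packet PQ-E1 (MP_2b9d24_gt): extension of homeomorphisms over the punctures.
-/

open Topology Filter Set Metric
open Pool.Agent.Helper64.PQ
open Pool.Agent.Helper78.BigMap

namespace Pool.Agent.Helper16.PQ

section
variable {X : Type*} [TopologicalSpace X] [T2Space X] {J : ℕ → OpenPartialHomeomorph ℂ X}
  {O : Set (OpenPartialHomeomorph (Sf J) ℂ)} {k : ℕ → OpenPartialHomeomorph ℂ (Sf J)}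

theorem E3_finite : E3.Finite := by
  unfold E3
  exact (Set.toFinite _)

theorem E3_abs {e : ℝ} (h : e ∈ E3) : |e| ≤ 1 / 4 := by
  unfold E3 at h
  simp only [mem_insert_iff, mem_singleton_iff] at h
  rcases h with rfl | rfl | rfl <;> rw [abs_le] <;> constructor <;> norm_num

theorem inC_norm {z : ℂ} (h : z ∈ inC E3) : ‖z‖ ≤ 1 / 4 := by
  obtain ⟨e, he, rfl⟩ := h
  have := E3_abs he
  simpa [Complex.norm_real] using this

theorem inC_finite : (inC E3).Finite := E3_finite.image _

theorem inC_src (hD : Data J) (i : ℕ) {z : ℂ} (h : z ∈ inC E3) : z ∈ (J i).source := by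
  rw [hD.source i, mem_ball_zero_iff]
  have := inC_norm h
  linarith

theorem cb_sub (hD : Data J) (i : ℕ) : closedBall (0 : ℂ) 1 ⊆ (J i).source := by
  rw [hD.source i]
  exact closedBall_subset_ball (by norm_num)

theorem mem_target (hD : Data J) {i : ℕ} {z : ℂ} (hz : z ∈ ball (0 : ℂ) 2) :
    J i z ∈ (J i).target := by
  apply (J i).map_source
  rw [hD.source i]
  exact hz

theorem eq_of_eq (hD : Data J) {i j : ℕ} {z w : ℂ} (hz : z ∈ ball (0 : ℂ) 2)
    (hw : w ∈ ball (0 : ℂ) 2) (h : J i z = J j w) : i = j ∧ z = w := by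
  have hij : i = j := by
    by_contra hne
    exact Set.disjoint_left.1 (hD.disj hne) (mem_target hD hz) (h ▸ mem_target hD hw)
  subst hij
  refine ⟨rfl, (J i).injOn ?_ ?_ h⟩
  · rw [hD.source i]; exact hz
  · rw [hD.source i]; exact hw

theorem inC_ball {z : ℂ} (h : z ∈ inC E3) : z ∈ ball (0 : ℂ) 2 := by
  rw [mem_ball_zero_iff]
  have := inC_norm h
  linarith

theorem PP_eq (hD : Data J) :
    PP J = (⋃ i, J i '' closedBall (0 : ℂ) 1) \ ⋃ i, J i '' (ball (0 : ℂ) 2 \ inC E3) := by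
  ext x
  simp only [PP, mem_iUnion, mem_diff, mem_image]
  constructor
  · rintro ⟨i, e, he, rfl⟩
    refine ⟨⟨i, e, ?_, rfl⟩, ?_⟩
    · rw [mem_closedBall_zero_iff]
      have := inC_norm he
      linarith
    · rintro ⟨j, z, ⟨hz, hz'⟩, h⟩
      obtain ⟨-, rfl⟩ := eq_of_eq hD hz (inC_ball he) h
      exact hz' he
  · rintro ⟨⟨i, z, hz, rfl⟩, h⟩
    refine ⟨i, z, ?_, rfl⟩
    by_contra hne
    exact h ⟨i, z, ⟨closedBall_subset_ball (by norm_num) hz, hne⟩, rfl⟩

theorem PP_closed (hD : Data J) : IsClosed (PP J) := by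
  rw [PP_eq hD]
  refine hD.closed.sdiff (isOpen_iUnion fun i => ?_)
  refine (J i).isOpen_image_of_subset_source (isOpen_ball.sdiff inC_finite.isClosed) ?_
  rw [hD.source i]
  exact diff_subset

theorem not_mem_PP (hD : Data J) {i : ℕ} {z : ℂ} (hz : z ∈ ball (0 : ℂ) 2) (h : z ∉ inC E3) :
    J i z ∉ PP J := by
  intro h'
  simp only [PP, mem_iUnion, mem_image] at h'
  obtain ⟨j, e, he, h'⟩ := h'
  obtain ⟨-, rfl⟩ := eq_of_eq hD (inC_ball he) hz h'
  exact h he

theorem patch (hD : Data J) (hk : IsK J O k) (i : ℕ) : Patch E3 (k i) := by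
  refine ⟨E3_finite.isCompact, ?_, ?_, (hk i).2.1, ?_⟩
  · exact E3_finite.countable.isTotallyDisconnected
  · intro e he
    have := E3_abs he
    rw [abs_le] at this
    exact ⟨by linarith [this.1], by linarith [this.2]⟩
  · have h : k i '' (closedBall (0 : ℂ) 1 \ inC E3) =
        (Subtype.val : Sf J → X) ⁻¹' (J i '' closedBall (0 : ℂ) 1) := by
      ext x
      simp only [mem_image, mem_preimage, mem_diff]
      constructor
      · rintro ⟨z, ⟨hz, hz'⟩, rfl⟩
        refine ⟨z, hz, ?_⟩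
        refine ((hk i).2.2 z ?_).symm
        rw [(hk i).2.1]
        exact ⟨closedBall_subset_ball (by norm_num) hz, hz'⟩
      · rintro ⟨z, hz, h⟩
        have hz' : z ∉ inC E3 := by
          intro h'
          apply x.2
          rw [← h]
          exact mem_iUnion.2 ⟨i, z, h', rfl⟩
        refine ⟨z, ⟨hz, hz'⟩, ?_⟩
        apply Subtype.ext
        rw [← h]
        refine (hk i).2.2 z ?_
        rw [(hk i).2.1]
        exact ⟨closedBall_subset_ball (by norm_num) hz, hz'⟩
    rw [h]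
    refine IsClosed.preimage continuous_subtype_val ?_
    exact ((isCompact_closedBall (0 : ℂ) 1).image_of_continuousOn
      ((J i).continuousOn.mono (cb_sub hD i))).isClosed

open Classical in
/-- The extension of `f` by the identity. -/
noncomputable def ex (J : ℕ → OpenPartialHomeomorph ℂ X) (f : Sf J → Sf J) (x : X) : X :=
  if h : x ∈ PP J then x else (f ⟨x, h⟩ : Sf J)

theorem ex_of_mem {f : Sf J → Sf J} {x : X} (h : x ∈ PP J) : ex J f x = x := dif_pos h

theorem ex_coe (f : Sf J → Sf J) (x : Sf J) : ex J f x = f x := dif_neg x.2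

theorem ex_cont (hD : Data J) (hk : IsK J O k) {f : Sf J → Sf J} (hf : Continuous f)
    (hN : ∀ i, NearE E3 (k i) f) : Continuous (ex J f) := by
  rw [continuous_iff_continuousAt]
  intro x
  by_cases hx : x ∈ PP J
  · have hx' := hx
    simp only [PP, mem_iUnion, mem_image] at hx'
    obtain ⟨i, e, he, rfl⟩ := hx'
    rw [ContinuousAt, ex_of_mem hx, ← (J i).map_nhds_eq (inC_src hD i he), tendsto_map'_iff,
      (J i).map_nhds_eq (inC_src hD i he)]
    intro V hV
    have hc : ContinuousAt (J i) e := (J i).continuousAt (inC_src hD i he)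
    obtain ⟨ε', hε', hV'⟩ := Metric.mem_nhds_iff.1 (hc hV)
    set ε := min ε' 1 with hε
    have hε0 : 0 < ε := lt_min hε' one_pos
    obtain ⟨r, hr, rfl⟩ := he
    obtain ⟨δ, hδ, hN'⟩ := hN i r hr ε hε0
    have hb : ball ((r : ℝ) : ℂ) ε ⊆ ball (0 : ℂ) 2 := by
      intro w hw
      have h1 : ‖w - r‖ < 1 := by
        have : dist w r < ε := hw
        rw [dist_eq_norm] at this
        exact lt_of_lt_of_le this (min_le_right _ _)
      have h2 : ‖(r : ℂ)‖ ≤ 1 / 4 := inC_norm ⟨r, hr, rfl⟩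
      rw [mem_ball_zero_iff]
      calc ‖w‖ = ‖(w - r) + r‖ := by rw [sub_add_cancel]
        _ ≤ ‖w - r‖ + ‖(r : ℂ)‖ := norm_add_le _ _
        _ < 2 := by linarith
    have hm : ball ((r : ℝ) : ℂ) (min δ ε) ∈ 𝓝 ((r : ℝ) : ℂ) :=
      ball_mem_nhds _ (lt_min hδ hε0)
    rw [Filter.mem_map]
    filter_upwards [hm] with z hz
    have hzδ : z ∈ ball ((r : ℝ) : ℂ) δ := ball_subset_ball (min_le_left _ _) hz
    have hzε : z ∈ ball ((r : ℝ) : ℂ) ε := ball_subset_ball (min_le_right _ _) hz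
    have hV2 : ∀ w ∈ ball ((r : ℝ) : ℂ) ε, J i w ∈ V := fun w hw =>
      hV' (ball_subset_ball (min_le_left _ _) hw)
    change ex J f (J i z) ∈ V
    by_cases hzE : z ∈ inC E3
    · rw [ex_of_mem (mem_iUnion.2 ⟨i, z, hzE, rfl⟩)]
      exact hV2 z hzε
    · have hs : z ∈ (k i).source := by
        rw [(hk i).2.1]
        exact ⟨hb hzε, hzE⟩
      rw [← (hk i).2.2 z hs, ex_coe]
      obtain ⟨w, ⟨hw, hw'⟩, hfw⟩ := hN' z ⟨hzδ, hzE⟩
      rw [← hfw, (hk i).2.2 w (by rw [(hk i).2.1]; exact ⟨hb hw, hw'⟩)]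
      exact hV2 w hw
  · have ho : IsOpenEmbedding (Subtype.val : Sf J → X) :=
      (PP_closed hD).isOpen_compl.isOpenEmbedding_subtypeVal
    have h1 : ContinuousAt (ex J f ∘ (Subtype.val : Sf J → X)) ⟨x, hx⟩ := by
      have : ex J f ∘ (Subtype.val : Sf J → X) = fun y => ((f y : Sf J) : X) := by
        funext y
        exact ex_coe f y
      rw [this]
      exact (continuous_subtype_val.comp hf).continuousAt
    exact (ho.continuousAt_iff).1 h1

end

theorem goalE1.{v} : Pool.Agent.Helper64.PQ.GoalE1.{v} := by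
  intro X _ _ J O k hD hk f hf
  have hN : ∀ i, NearE E3 (k i) f := fun i =>
    Pool.Agent.Helper89.BigA.goalA1 (Sf J) E3 (k i) (patch hD hk i) f hf
  have hf' : FixesEnds f.symm := (Pool.Agent.Helper89.BigA.goalA3 (Sf J) f f hf hf).2
  have hN' : ∀ i, NearE E3 (k i) f.symm := fun i =>
    Pool.Agent.Helper89.BigA.goalA1 (Sf J) E3 (k i) (patch hD hk i) f.symm hf'
  have hinv : ∀ g g' : Sf J → Sf J, (∀ x, g' (g x) = x) → ∀ x, ex J g' (ex J g x) = x := by
    intro g g' h x
    by_cases hx : x ∈ PP J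
    · rw [ex_of_mem hx, ex_of_mem hx]
    · have h1 : ex J g x = g ⟨x, hx⟩ := ex_coe g ⟨x, hx⟩
      rw [h1, ex_coe, h]
  refine ⟨{ toFun := ex J f
            invFun := ex J f.symm
            left_inv := hinv f f.symm f.symm_apply_apply
            right_inv := hinv f.symm f f.apply_symm_apply
            continuous_toFun := ex_cont hD hk f.continuous hN
            continuous_invFun := ex_cont hD hk f.symm.continuous hN' }, ?_, ?_⟩
  · intro x
    exact ex_coe f x
  · intro x hx
    exact ex_of_mem hx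

end Pool.Agent.Helper16.PQ
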